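import Pool.Agent.H41.T1.S5
import Pool.Agent.H34.HYP.CTX
import Pool.Agent.H59.HYP.CTM
import Pool.Agent.H2.HYP.CX3
import Pool.Agent.H52.HYP.CX4

/-!
# T1, CTMK: the number of pairs with local conditions
-/

set_option autoImplicit false
set_option linter.overlappingInstances false
set_option linter.unusedSectionVars false

namespace Pool.T1

open Polynomial Matrix Pool.HYP Pool.TOW Pool.AVS IsDedekindDomain

namespace CTM72

section Count

variable {R : Type} [CommRing R] [IsDomain R] {K : Type} [Field K] [Algebra R K]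
  {O : ValuationSubring K}

/-- The possible residues of `S` for given residues of `G`. -/
def XPK (g : ℕ) (D : Dat R O) (G : Matrix (Fin (2 * g + 1)) (Fin (2 * g + 1)) R)
    (P : HeightOneSpectrum R) : Set (Matrix (Fin (2 * g + 1)) (Fin (2 * g + 1)) (R ⧸ P.asIdeal)) :=
  {S | ∃ a : Matrix (Fin (2 * g + 1)) (Fin (2 * g + 1)) (R ⧸ P.asIdeal), a.det ≠ 0 ∧
    G.map (Ideal.Quotient.mk P.asIdeal) = aᵀ * gr 0 (2 * g + 1)
      ((X - C (Ideal.Quotient.mk P.asIdeal (D.c P))) * md P.asIdeal (D.γ P)) 1 * a ∧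
    S = aᵀ * gr 1 (2 * g + 1)
      ((X - C (Ideal.Quotient.mk P.asIdeal (D.c P))) * md P.asIdeal (D.γ P)) 1 * a}

theorem map_cong {n : ℕ} {P : Ideal R} {A B : Matrix (Fin n) (Fin n) R}
    (h : ∀ i j, (A - B) i j ∈ P) :
    A.map (Ideal.Quotient.mk P) = B.map (Ideal.Quotient.mk P) := by
  ext i j
  rw [Matrix.map_apply, Matrix.map_apply, Ideal.Quotient.mk_eq_mk_iff_sub_mem]
  exact h i j

theorem mem_XPK {π : K} {g : ℕ} {D : Dat R O} {h : ℕ} {f : R[X]} (hf : f ∈ Fam π g D h)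
    {P : HeightOneSpectrum R} (hP : P ∈ D.T)
    {G S : Matrix (Fin (2 * g + 1)) (Fin (2 * g + 1)) R}
    (hst : StdP (2 * g + 1) P.asIdeal f G S) :
    S.map (Ideal.Quotient.mk P.asIdeal) ∈ XPK g D G P := by
  obtain ⟨a, ha, hG, hS⟩ := hst
  have hnt : (1 : R ⧸ P.asIdeal) ≠ 0 := by
    have : Nontrivial (R ⧸ P.asIdeal) := Ideal.Quotient.nontrivial_iff.2 P.isPrime.ne_top
    exact one_ne_zero
  have hfm : f.map (Ideal.Quotient.mk P.asIdeal) =
      (X - C (Ideal.Quotient.mk P.asIdeal (D.c P))) * md P.asIdeal (D.γ P) := by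
    have hr := hf.2.2.1 P hP
    have h1 : (f - (X - C (D.c P)) * D.γ P).map (Ideal.Quotient.mk P.asIdeal) = 0 := by
      ext i
      rw [coeff_map, coeff_zero]
      exact Ideal.Quotient.eq_zero_iff_mem.2 (hr i)
    rw [Polynomial.map_sub, sub_eq_zero, Polynomial.map_mul, Polynomial.map_sub,
      Polynomial.map_X, Polynomial.map_C] at h1
    exact h1
  have hcomp : ∀ k, (aᵀ * gr k (2 * g + 1) f 1 * a).map (Ideal.Quotient.mk P.asIdeal) =
      (a.map (Ideal.Quotient.mk P.asIdeal))ᵀ * gr k (2 * g + 1)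
      ((X - C (Ideal.Quotient.mk P.asIdeal (D.c P))) * md P.asIdeal (D.γ P)) 1 *
      a.map (Ideal.Quotient.mk P.asIdeal) := by
    intro k
    rw [Matrix.map_mul, Matrix.map_mul, Pool.HYP59.gr_map _ hf.1.1 _ _ hnt, hfm,
      Matrix.transpose_map]
  refine ⟨a.map (Ideal.Quotient.mk P.asIdeal), ?_, ?_, ?_⟩
  · rw [← RingHom.mapMatrix_apply, ← RingHom.map_det]
    intro h0
    exact ha (Ideal.Quotient.eq_zero_iff_mem.1 h0)
  · rw [map_cong hG, hcomp]
  · rw [map_cong hS, hcomp]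

theorem two_quot [IsFractionRing R K] {π : K} (hGR : GR R O π) (P : HeightOneSpectrum R) :
    (2 : R ⧸ P.asIdeal) ≠ 0 := by
  obtain ⟨p, hp, hc⟩ := hGR.char
  have hnt : Nontrivial (R ⧸ P.asIdeal) := Ideal.Quotient.nontrivial_iff.2 P.isPrime.ne_top
  have h2 : p ≠ 2 := by
    rintro rfl
    have := CharP.cast_eq_zero K 2
    exact hGR.two (by exact_mod_cast this)
  have hpR : (p : R) = 0 := by
    apply IsFractionRing.injective R K
    rw [map_natCast, map_zero]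
    exact CharP.cast_eq_zero K p
  have hpQ : (p : R ⧸ P.asIdeal) = 0 := by
    have h := congrArg (Ideal.Quotient.mk P.asIdeal) hpR
    rwa [map_natCast, map_zero] at h
  intro h0
  obtain ⟨m, hm⟩ := hp.odd_of_ne_two h2
  rw [hm] at hpQ
  push_cast at hpQ
  rw [h0, zero_mul, zero_add] at hpQ
  exact one_ne_zero hpQ

theorem card_XPK [IsDedekindDomain R] [IsFractionRing R K] {π : K} (hGR : GR R O π) {g : ℕ}
    (hg : 1 ≤ g) {D : Dat R O} {P : HeightOneSpectrum R} (hok : OkP (2 * g) P.asIdeal (D.γ P))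
    (G : Matrix (Fin (2 * g + 1)) (Fin (2 * g + 1)) R) :
    2 * (Nm P - (2 * g + 1)) * (XPK g D G P).ncard ≤ Nm P * Nm P ^ ((2 * g + 1) * g) := by
  obtain ⟨hγm, hγd, hγi⟩ := hok
  have hmax : P.asIdeal.IsMaximal := P.isMaximal
  have hnt : Nontrivial (R ⧸ P.asIdeal) := Ideal.Quotient.nontrivial_iff.2 P.isPrime.ne_top
  have h2 := two_quot hGR P
  let : Field (R ⧸ P.asIdeal) := Ideal.Quotient.field P.asIdeal
  have : Finite (R ⧸ P.asIdeal) := hGR.fin _ P.ne_bot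
  have hkey := Pool.HYP.ctx Pool.HYP.cx3 Pool.HYP.cx4 (R ⧸ P.asIdeal) h2 g (Ideal.Quotient.mk P.asIdeal (D.c P))
    (md P.asIdeal (D.γ P)) hg (hγm.map _) (by rw [hγm.natDegree_map, hγd]) hγi
    (G.map (Ideal.Quotient.mk P.asIdeal))
  exact hkey

/-- The product of the local factors. -/
theorem prod_XPK [IsDedekindDomain R] [IsFractionRing R K] {π : K} (hGR : GR R O π) {g : ℕ}
    (hg : 1 ≤ g) {D : Dat R O} (hok : D.Ok g)
    (hT : ∀ P ∈ D.T, 2 * (2 * g + 1) * D.T.card ≤ Nm P)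
    (G : Matrix (Fin (2 * g + 1)) (Fin (2 * g + 1)) R) :
    2 ^ D.T.card * ∏ P ∈ D.T, (XPK g D G P).ncard ≤
      2 * (∏ P ∈ D.T, Nm P) ^ ((2 * g + 1) * g) := by
  have h1 : ∏ P ∈ D.T, (2 * (Nm P - (2 * g + 1)) * (XPK g D G P).ncard) ≤
      ∏ P ∈ D.T, (Nm P * Nm P ^ ((2 * g + 1) * g)) :=
    Finset.prod_le_prod' fun P hP => card_XPK hGR hg (hok.2.1 P hP) G
  have h3 := Pool.HYP59.prod_sub D.T (2 * g + 1) (fun P => Nm P) hT (by omega)
  rw [Finset.prod_mul_distrib, Finset.prod_mul_distrib, Finset.prod_const,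
    Finset.prod_mul_distrib, Finset.prod_pow] at h1
  have hq : 0 < ∏ P ∈ D.T, Nm P := Finset.prod_pos fun P _ => by
    have : Finite (R ⧸ P.asIdeal) := hGR.fin _ P.ne_bot
    have hnt : Nontrivial (R ⧸ P.asIdeal) := Ideal.Quotient.nontrivial_iff.2 P.isPrime.ne_top
    exact Nat.card_pos
  apply Nat.le_of_mul_le_mul_left _ hq
  calc (∏ P ∈ D.T, Nm P) * (2 ^ D.T.card * ∏ P ∈ D.T, (XPK g D G P).ncard)
      ≤ (2 * ∏ P ∈ D.T, (Nm P - (2 * g + 1))) *
        (2 ^ D.T.card * ∏ P ∈ D.T, (XPK g D G P).ncard) := Nat.mul_le_mul_right _ h3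
    _ = 2 * (2 ^ D.T.card * (∏ P ∈ D.T, (Nm P - (2 * g + 1))) *
        ∏ P ∈ D.T, (XPK g D G P).ncard) := by ring
    _ ≤ 2 * ((∏ P ∈ D.T, Nm P) * (∏ P ∈ D.T, Nm P) ^ ((2 * g + 1) * g)) :=
        Nat.mul_le_mul_left _ h1
    _ = (∏ P ∈ D.T, Nm P) * (2 * (∏ P ∈ D.T, Nm P) ^ ((2 * g + 1) * g)) := by
        ring

end Count

end CTM72

open CTM72

theorem ctmk (hCTS : CTSKStmt) (hCTR : CTRKStmt) : CTMKStmt := by
  intro R _ _ K _ _ _ O π hGR hCnt g D h d hg hok hT hdist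
  classical
  set M := ∏ P ∈ D.T, Nm P with hM
  obtain ⟨hGf, hGc⟩ := hCTS R K O π hCnt (2 * g + 1) (fun i j => d i + d j)
  obtain ⟨hSf, -⟩ := hCTS R K O π hCnt (2 * g + 1) (fun i j => d i + d j + h)
  have hMpos : 0 < M := Finset.prod_pos fun P _ => by
    have : Finite (R ⧸ P.asIdeal) := hGR.fin _ P.ne_bot
    have hnt : Nontrivial (R ⧸ P.asIdeal) := Ideal.Quotient.nontrivial_iff.2 P.isPrime.ne_top
    exact Nat.card_pos
  -- the number of matrices `S`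
  have hS : ∀ G : Matrix (Fin (2 * g + 1)) (Fin (2 * g + 1)) R,
      2 ^ D.T.card * {S : Matrix (Fin (2 * g + 1)) (Fin (2 * g + 1)) R | Sᵀ = S ∧
        (∀ i j, S i j ∈ Lm R O π (d i + d j + h)) ∧
        ∀ P ∈ D.T, S.map (Ideal.Quotient.mk P.asIdeal) ∈ XPK g D G P}.ncard *
        M ^ (2 * g + 1) ≤ 2 * qq O ^ ESk d h := by
    intro G
    have h1 := hCTR R K O π hGR hCnt (2 * g + 1) D.T (XPK g D G)
      (fun i j => d i + d j + h) hdist
    have hexp : (2 * g + 1) * (2 * g + 1 + 1) / 2 = (2 * g + 1) * g + (2 * g + 1) := by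
      have : (2 * g + 1) * (2 * g + 1 + 1) = 2 * ((2 * g + 1) * g + (2 * g + 1)) := by ring
      rw [this, Nat.mul_div_cancel_left _ (by norm_num)]
    rw [hexp] at h1
    set W := {S : Matrix (Fin (2 * g + 1)) (Fin (2 * g + 1)) R | Sᵀ = S ∧
        (∀ i j, S i j ∈ Lm R O π (d i + d j + h)) ∧
        ∀ P ∈ D.T, S.map (Ideal.Quotient.mk P.asIdeal) ∈ XPK g D G P}.ncard with hW
    have hpX := prod_XPK hGR hg hok hT G
    have hpos : 0 < M ^ ((2 * g + 1) * g) := pow_pos hMpos _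
    apply Nat.le_of_mul_le_mul_left _ hpos
    calc M ^ ((2 * g + 1) * g) * (2 ^ D.T.card * W * M ^ (2 * g + 1))
        = 2 ^ D.T.card * (W * M ^ ((2 * g + 1) * g + (2 * g + 1))) := by rw [pow_add]; ring
      _ ≤ 2 ^ D.T.card * ((∏ P ∈ D.T, (XPK g D G P).ncard) * qq O ^ ESk d h) :=
          Nat.mul_le_mul_left _ h1
      _ = (2 ^ D.T.card * ∏ P ∈ D.T, (XPK g D G P).ncard) * qq O ^ ESk d h := by ring
      _ ≤ (2 * M ^ ((2 * g + 1) * g)) * qq O ^ ESk d h := Nat.mul_le_mul_right _ hpX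
      _ = M ^ ((2 * g + 1) * g) * (2 * qq O ^ ESk d h) := by ring
  -- finiteness
  have hsub : PPK π g D h d ⊆ {G : Matrix (Fin (2 * g + 1)) (Fin (2 * g + 1)) R | Gᵀ = G ∧
      ∀ i j, G i j ∈ Lm R O π (d i + d j)} ×ˢ
      {G : Matrix (Fin (2 * g + 1)) (Fin (2 * g + 1)) R | Gᵀ = G ∧
      ∀ i j, G i j ∈ Lm R O π (d i + d j + h)} := by
    rintro ⟨G, S⟩ ⟨f, -, hPM⟩
    exact ⟨⟨hPM.1, hPM.2.2.1⟩, ⟨hPM.2.1, hPM.2.2.2.1⟩⟩
  have hPf : (PPK π g D h d).Finite := (hGf.prod hSf).subset hsub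
  have hmap : ∀ p ∈ hPf.toFinset, Prod.fst p ∈ hGf.toFinset := by
    intro p hp
    rw [Set.Finite.mem_toFinset] at hp ⊢
    exact (hsub hp).1
  rw [Set.ncard_eq_toFinset_card _ hPf, Finset.card_eq_sum_card_fiberwise hmap,
    Finset.mul_sum, Finset.sum_mul]
  calc _ ≤ ∑ G ∈ hGf.toFinset, 2 * qq O ^ ESk d h := by
        apply Finset.sum_le_sum
        intro G _
        refine le_trans (Nat.mul_le_mul_right _ (Nat.mul_le_mul_left _ ?_)) (hS G)
        have hfin : {S : Matrix (Fin (2 * g + 1)) (Fin (2 * g + 1)) R | Sᵀ = S ∧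
            (∀ i j, S i j ∈ Lm R O π (d i + d j + h)) ∧
            ∀ P ∈ D.T, S.map (Ideal.Quotient.mk P.asIdeal) ∈ XPK g D G P}.Finite :=
          hSf.subset fun S hS => ⟨hS.1, hS.2.1⟩
        rw [Set.ncard_eq_toFinset_card _ hfin]
        apply Finset.card_le_card_of_injOn Prod.snd
        · rintro ⟨G', S⟩ hp
          rw [Finset.mem_coe, Finset.mem_filter, Set.Finite.mem_toFinset] at hp
          obtain ⟨⟨f, hf, hPM⟩, rfl⟩ := hp
          rw [Finset.mem_coe, Set.Finite.mem_toFinset]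
          exact ⟨hPM.2.1, hPM.2.2.2.1, fun P hP =>
            mem_XPK hf hP (hPM.2.2.2.2.2.2.1 P hP)⟩
        · rintro ⟨G', S⟩ hp ⟨G'', S'⟩ hp' hSS
          rw [Finset.mem_coe, Finset.mem_filter] at hp hp'
          exact Prod.ext (hp.2.trans hp'.2.symm) hSS
    _ = hGf.toFinset.card * (2 * qq O ^ ESk d h) := by
        rw [Finset.sum_const, smul_eq_mul]
    _ ≤ qq O ^ EGk d * (2 * qq O ^ ESk d h) := by
        apply Nat.mul_le_mul_right
        rw [← Set.ncard_eq_toFinset_card _ hGf]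
        exact hGc
    _ = 2 * qq O ^ (EGk d + ESk d h) := by rw [pow_add]; ring

end Pool.T1
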