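import Pool.Agent.H14.T1.S3
import Pool.Agent.H74.HYP.UNR

/-!
# T1, LSA: at a place where `f` is irreducible of odd degree every class of square norm is nearly
# trivial
-/

set_option autoImplicit false

namespace Pool.T1

open Polynomial Matrix Pool.HYP Pool.TOW Pool.AVS IsDedekindDomain

namespace LSA72

section

variable {K : Type} [Field K] {V : ValuationSubring K} {π : K}

/-- `π` as an element of `V`. -/
def pv (hU : Unif V π) : V := ⟨π, hU.2.1⟩

theorem coe_pv (hU : Unif V π) : algebraMap V K (pv hU) = π := rfl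

theorem pv_nu (hU : Unif V π) : ¬ IsUnit (pv hU) := by
  rintro ⟨u, hu⟩
  apply hU.2.2.1
  have h1 : (algebraMap V K (u : V)) * (algebraMap V K ((u⁻¹ : Vˣ) : V)) = 1 := by
    rw [← map_mul, Units.mul_inv, map_one]
  rw [hu, coe_pv] at h1
  rw [inv_eq_of_mul_eq_one_right h1]
  exact ((u⁻¹ : Vˣ) : V).2

theorem res_pv (hU : Unif V π) : IsLocalRing.residue V (pv hU) = 0 := by
  rw [IsLocalRing.residue_eq_zero_iff, IsLocalRing.mem_maximalIdeal]
  exact pv_nu hU

theorem div_pv (hU : Unif V π) (z : V) (hz : IsLocalRing.residue V z = 0) : pv hU ∣ z := by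
  by_cases h0 : z = 0
  · rw [h0]; exact dvd_zero _
  have hzK : (z : K) ≠ 0 := fun h => h0 (Subtype.ext h)
  have h1 : (z : K)⁻¹ ∉ V := by
    intro h
    rw [IsLocalRing.residue_eq_zero_iff, IsLocalRing.mem_maximalIdeal] at hz
    apply hz
    refine IsUnit.of_mul_eq_one (⟨_, h⟩ : V) ?_
    apply Subtype.ext
    exact mul_inv_cancel₀ hzK
  have h2 := hU.2.2.2 z z.2 h1
  refine ⟨⟨_, h2⟩, Subtype.ext ?_⟩
  change (z : K) = π * (z / π)
  rw [mul_div_cancel₀ _ hU.1]

theorem ker_rd (hU : Unif V π) (q : V[X]) (hq : rd V q = 0) : ∃ w : V[X], q = C (pv hU) * w := by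
  have h : C (pv hU) ∣ q := by
    rw [C_dvd_iff_dvd_coeff]
    intro i
    apply div_pv
    rw [← coeff_map]
    exact (congrArg (fun r => r.coeff i) hq).trans (coeff_zero _)
  exact h

theorem zpow_mem' (hU : Unif V π) {n : ℤ} (hn : 0 ≤ n) : π ^ n ∈ V := by
  lift n to ℕ using hn
  rw [zpow_natCast]
  exact pow_mem hU.2.1 n

/-- Every nonzero polynomial over `K` is a power of `π` times a primitive polynomial. -/
theorem scale (hU : Unif V π) (hA : ∀ x : K, x ≠ 0 → ∃ n : ℤ, UI (V : Set K) (x / π ^ n))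
    (r : K[X]) (hr : r ≠ 0) :
    ∃ (n : ℤ) (p : V[X]), r = C (π ^ n) * oL V p ∧ rd V p ≠ 0 ∧ p.degree = r.degree := by
  have hpi := hU.1
  choose! ν h0 using hA
  have h1 : ∀ x : K, x ≠ 0 → x / π ^ ν x ∈ V := fun x hx => (h0 x hx).2.1
  have h2 : ∀ x : K, x ≠ 0 → (x / π ^ ν x)⁻¹ ∈ V := fun x hx => (h0 x hx).2.2
  obtain ⟨i₀, hi₀, hmin⟩ := r.support.exists_min_image (fun i => ν (r.coeff i))
    (support_nonempty.2 hr)
  have hc : r.coeff i₀ ≠ 0 := mem_support_iff.1 hi₀
  have hn0 : π ^ ν (r.coeff i₀) ≠ 0 := zpow_ne_zero _ hpi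
  have hO : ∀ i, (π ^ ν (r.coeff i₀))⁻¹ * r.coeff i ∈ V := by
    intro i
    by_cases h : r.coeff i = 0
    · rw [h, mul_zero]; exact V.zero_mem
    · have h3 := hmin i (mem_support_iff.2 h)
      have h4 := h1 _ h
      have h5 : (π ^ ν (r.coeff i₀))⁻¹ * r.coeff i =
          π ^ (ν (r.coeff i) - ν (r.coeff i₀)) * (r.coeff i / π ^ ν (r.coeff i)) := by
        have hn1 : π ^ ν (r.coeff i) ≠ 0 := zpow_ne_zero _ hpi
        rw [zpow_sub₀ hpi]
        field_simp
      rw [h5]
      exact V.mul_mem _ _ (zpow_mem' hU (by simpa using h3)) h4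
  have hl : C ((π ^ ν (r.coeff i₀))⁻¹) * r ∈ lifts (algebraMap V K) := by
    rw [lifts_iff_coeff_lifts]
    intro i
    rw [coeff_C_mul]
    exact ⟨⟨_, hO i⟩, rfl⟩
  obtain ⟨p, hp⟩ := (mem_lifts _).1 hl
  have hr2 : r = C (π ^ ν (r.coeff i₀)) * oL V p := by
    rw [show oL V p = _ from hp, ← mul_assoc, ← C_mul, mul_inv_cancel₀ hn0, C_1, one_mul]
  refine ⟨ν (r.coeff i₀), p, hr2, ?_, ?_⟩
  · intro h0
    have h6 : IsLocalRing.residue V (p.coeff i₀) = 0 := by
      rw [← coeff_map]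
      exact (congrArg (fun q => q.coeff i₀) h0).trans (coeff_zero _)
    have h7 : algebraMap V K (p.coeff i₀) = r.coeff i₀ / π ^ ν (r.coeff i₀) := by
      rw [← coeff_map, hp, coeff_C_mul]
      field_simp
    have h8 : IsUnit (p.coeff i₀) := by
      refine IsUnit.of_mul_eq_one (⟨_, h2 _ hc⟩ : V) ?_
      apply Subtype.ext
      change algebraMap V K (p.coeff i₀) * (r.coeff i₀ / π ^ ν (r.coeff i₀))⁻¹ = 1
      rw [h7]
      exact mul_inv_cancel₀ (div_ne_zero hc hn0)
    exact (h8.map (IsLocalRing.residue V)).ne_zero h6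
  · have h9 : (oL V p).degree = p.degree := degree_map_eq_of_injective
      (IsFractionRing.injective V K) p
    rw [← h9]
    conv_rhs => rw [hr2]
    rw [degree_C_mul hn0]

/-- A polynomial not divisible by `f` is a power of `π` times a unit modulo `f`. -/
theorem part1 (hU : Unif V π) (hA : ∀ x : K, x ≠ 0 → ∃ n : ℤ, UI (V : Set K) (x / π ^ n))
    (f : V[X]) (hf : f.Monic) (hi : Irreducible (rd V f)) (h : K[X]) (hh : ¬ oL V f ∣ h) :
    ∃ (n : ℤ) (p : V[X]), IsCoprime (rd V p) (rd V f) ∧ oL V f ∣ h - C (π ^ n) * oL V p := by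
  have hm : (oL V f).Monic := hf.map _
  have hr : h %ₘ oL V f ≠ 0 := fun h0 => hh ((modByMonic_eq_zero_iff_dvd hm).1 h0)
  obtain ⟨n, p, h1, h2, h3⟩ := scale hU hA _ hr
  refine ⟨n, p, Pool.HYP.UNR.cop f p hf hi h2 ?_, ?_⟩
  · rw [h3]
    have h4 := degree_modByMonic_lt h hm
    rwa [show (oL V f).degree = f.degree from hf.degree_map _] at h4
  · rw [← h1]
    refine ⟨h /ₘ oL V f, ?_⟩
    have h5 := modByMonic_add_div h (oL V f)
    linear_combination -h5

/-- The norm of a unit modulo `f` is a unit. -/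
theorem norm_unit (f : V[X]) (hf : f.Monic) (hi : Irreducible (rd V f)) (p : V[X])
    (hp : IsCoprime (rd V p) (rd V f)) : IsUnit (Algebra.norm V (AdjoinRoot.mk f p)) := by
  have h1 := Pool.HYP.UNR.norm_ne _ _ (hf.map _) hi hp
  rw [Pool.HYP.UNR.normk f p hf] at h1
  by_contra hc
  exact h1 ((IsLocalRing.residue_eq_zero_iff _).2 ((IsLocalRing.mem_maximalIdeal _).2 hc))

/-- A unit of `V` times a power of `π` which is a square has even exponent. -/
theorem even_of_sq (hU : Unif V π) (hA : ∀ x : K, x ≠ 0 → ∃ n : ℤ, UI (V : Set K) (x / π ^ n))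
    (m : ℤ) (u : V) (hu : IsUnit u) (hs : IsSquare (π ^ m * algebraMap V K u)) : Even m := by
  obtain ⟨y, hy⟩ := hs
  have hpi := hU.1
  obtain ⟨v, rfl⟩ := hu
  have huK : algebraMap V K (v : V) * algebraMap V K ((v⁻¹ : Vˣ) : V) = 1 := by
    rw [← map_mul, Units.mul_inv, map_one]
  have hu0 : algebraMap V K (v : V) ≠ 0 := left_ne_zero_of_mul_eq_one huK
  have hy0 : y ≠ 0 := by
    rintro rfl
    rw [mul_zero] at hy
    exact mul_ne_zero (zpow_ne_zero _ hpi) hu0 hy
  obtain ⟨n, hn0, hn1, hn2⟩ := hA y hy0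
  have hmn : m = 2 * n := by
    set w := y / π ^ n with hw
    have hyw : y = w * π ^ n := by rw [hw, div_mul_cancel₀ _ (zpow_ne_zero _ hpi)]
    have h1 : π ^ (m - 2 * n) = w * w * algebraMap V K ((v⁻¹ : Vˣ) : V) := by
      rw [zpow_sub₀ hpi, div_eq_iff (zpow_ne_zero _ hpi), two_mul, zpow_add₀ hpi]
      have h2 : π ^ m * (algebraMap V K (v : V) * algebraMap V K ((v⁻¹ : Vˣ) : V)) =
          w * π ^ n * (w * π ^ n) * algebraMap V K ((v⁻¹ : Vˣ) : V) := by
        rw [← mul_assoc, hy, hyw]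
      rw [huK, mul_one] at h2
      rw [h2]
      ring
    have h1' : π ^ (2 * n - m) = w⁻¹ * w⁻¹ * algebraMap V K (v : V) := by
      have h3 : (w * w * algebraMap V K ((v⁻¹ : Vˣ) : V)) *
          (w⁻¹ * w⁻¹ * algebraMap V K (v : V)) = 1 := by
        rw [show (w * w * algebraMap V K ((v⁻¹ : Vˣ) : V)) *
          (w⁻¹ * w⁻¹ * algebraMap V K (v : V)) = (w * w⁻¹) * (w * w⁻¹) *
          (algebraMap V K (v : V) * algebraMap V K ((v⁻¹ : Vˣ) : V)) from by ring,
          mul_inv_cancel₀ hn0, huK]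
        ring
      rw [← h1] at h3
      rw [← neg_sub, _root_.zpow_neg, inv_eq_of_mul_eq_one_right h3]
    have hm1 : π ^ (m - 2 * n) ∈ V := by
      rw [h1]
      exact V.mul_mem _ _ (V.mul_mem _ _ hn1 hn1) ((v⁻¹ : Vˣ) : V).2
    have hm2 : π ^ (2 * n - m) ∈ V := by
      rw [h1']
      exact V.mul_mem _ _ (V.mul_mem _ _ hn2 hn2) (v : V).2
    -- powers of `π` with nonzero exponent are not units
    by_contra hne
    rcases lt_or_gt_of_ne hne with hlt | hlt
    · have h4 : π⁻¹ = π ^ (m - 2 * n) * π ^ (2 * n - m - 1) := by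
        rw [← zpow_add₀ hpi, ← _root_.zpow_neg_one]
        congr 1
        ring
      apply hU.2.2.1
      rw [h4]
      exact V.mul_mem _ _ hm1 (zpow_mem' hU (by omega))
    · have h4 : π⁻¹ = π ^ (2 * n - m) * π ^ (m - 2 * n - 1) := by
        rw [← zpow_add₀ hpi, ← _root_.zpow_neg_one]
        congr 1
        ring
      apply hU.2.2.1
      rw [h4]
      exact V.mul_mem _ _ hm2 (zpow_mem' hU (by omega))
  exact ⟨n, by omega⟩

/-- Newton's iteration. -/
theorem newton (hU : Unif V π) (h2 : (2 : K)⁻¹ ∈ V) (h20 : (2 : K) ≠ 0) (f p t₀ : V[X])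
    (h0 : rd V f ∣ rd V p * rd V t₀ ^ 2 - 1) (m : ℕ) :
    ∃ t q : V[X], f ∣ p * t ^ 2 - 1 - C (pv hU ^ (m + 1)) * q := by
  set c : V := ⟨(2 : K)⁻¹, h2⟩ with hc
  have hc2 : c * 2 = 1 := by
    apply Subtype.ext
    change (2 : K)⁻¹ * ((2 : V) : K) = 1
    have : ((2 : V) : K) = 2 := rfl
    rw [this, inv_mul_cancel₀ h20]
  have hC : (C c : V[X]) * 2 = 1 := by
    have : (2 : V[X]) = C 2 := (C_ofNat 2).symm
    rw [this, ← C_mul, hc2, C_1]
  induction m with
  | zero =>
    obtain ⟨A', hA'⟩ := h0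
    obtain ⟨A, hA⟩ := Polynomial.map_surjective (IsLocalRing.residue V)
      IsLocalRing.residue_surjective A'
    have h3 : rd V (p * t₀ ^ 2 - 1 - f * A) = 0 := by
      simp only [rd, Polynomial.map_sub, Polynomial.map_mul, Polynomial.map_pow,
        Polynomial.map_one] at hA' ⊢
      rw [hA', hA, sub_self]
    obtain ⟨w, hw⟩ := ker_rd hU _ h3
    refine ⟨t₀, w, A, ?_⟩
    rw [zero_add, pow_one, ← hw]
    ring
  | succ m ih =>
    obtain ⟨t, q, B, hB⟩ := ih
    -- `e = p t ^ 2 - 1`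
    set e := p * t ^ 2 - 1 with he
    have he1 : e = f * B + C (pv hU ^ (m + 1)) * q := by linear_combination hB
    refine ⟨t * (1 - C c * e), (C (pv hU ^ m) * q ^ 2) * (C c ^ 2 * (e - 3)),
      (f * B ^ 2 + 2 * B * C (pv hU ^ (m + 1)) * q) * (C c ^ 2 * (e - 3)), ?_⟩
    have h4 : p * (t * (1 - C c * e)) ^ 2 - 1 = e ^ 2 * (C c ^ 2 * (e - 3)) := by
      have h5 : p * (t * (1 - C c * e)) ^ 2 = (1 + e) * (1 - C c * e) ^ 2 := by
        rw [he]; ring
      have h6 : (C c : V[X]) ^ 2 * 4 = 1 := by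
        linear_combination (C c * 2 + 1) * hC
      rw [h5]
      linear_combination (-e - e ^ 2) * hC + e ^ 2 * h6
    have h7 : C (pv hU ^ (m + 1 + 1)) * (C (pv hU ^ m) * q ^ 2) =
        (C (pv hU ^ (m + 1)) * q) ^ 2 := by
      rw [show m + 1 + 1 = (m + 1) + 1 from rfl]
      simp only [C_pow]
      ring
    rw [h4]
    have h8 : e ^ 2 = f * (f * B ^ 2 + 2 * B * C (pv hU ^ (m + 1)) * q) +
        (C (pv hU ^ (m + 1)) * q) ^ 2 := by
      rw [he1]; ring
    rw [← mul_assoc (C (pv hU ^ (m + 1 + 1))), h7]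
    linear_combination (C c ^ 2 * (e - 3)) * h8

end

end LSA72

open LSA72 in
/-- **LSA.** -/
theorem lsa : LSAStmt := by
  intro K _ V π h20 h2 hU hA hfin f α hf hodd hi hcop hN a ha
  have hpi := hU.1
  have hfm : (oL V f).Monic := hf.map _
  have hnd : ¬ oL V f ∣ α := by
    intro h
    have h1 : IsUnit (oL V f) := hcop.isUnit_of_dvd' h dvd_rfl
    have h3 : f.natDegree = 0 := by
      have h4 := natDegree_eq_zero_of_isUnit h1
      rwa [show (oL V f).natDegree = f.natDegree from hf.natDegree_map _] at h4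
    rw [h3] at hodd
    exact absurd hodd (by decide)
  obtain ⟨n, p, hp, A, hA'⟩ := part1 hU hA f hf hi α hnd
  -- the norm
  have hnorm : Algebra.norm K (AdjoinRoot.mk (oL V f) α) =
      π ^ (n * f.natDegree) * algebraMap V K (Algebra.norm V (AdjoinRoot.mk f p)) := by
    have h1 : AdjoinRoot.mk (oL V f) α =
        AdjoinRoot.mk (oL V f) (C (π ^ n)) * AdjoinRoot.mk (oL V f) (oL V p) := by
      rw [← map_mul, AdjoinRoot.mk_eq_mk]
      exact ⟨A, hA'⟩
    have hfree : Module.Free K (AdjoinRoot (oL V f)) := hfm.free_adjoinRoot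
    have hfinr : Module.finrank K (AdjoinRoot (oL V f)) = f.natDegree := by
      rw [(AdjoinRoot.powerBasis' hfm).finrank, AdjoinRoot.powerBasis'_dim]
      exact hf.natDegree_map _
    rw [h1, map_mul, Pool.HYP.UNR.normL f p hf]
    congr 1
    rw [AdjoinRoot.mk_C, ← AdjoinRoot.algebraMap_eq, Algebra.norm_algebraMap, hfinr,
      _root_.zpow_mul, zpow_natCast]
  have hup := norm_unit f hf hi p hp
  have hN' : IsSquare (π ^ (n * f.natDegree) *
      algebraMap V K (Algebra.norm V (AdjoinRoot.mk f p))) := by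
    have := hN
    unfold NSq at this
    rwa [hnorm] at this
  have hev := even_of_sq hU hA _ _ hup hN'
  have hn : Even n := by
    rcases Int.even_mul.1 hev with h | h
    · exact h
    · exfalso
      rw [Int.even_coe_nat] at h
      exact (Nat.not_even_iff_odd.2 hodd) h
  obtain ⟨k, hk⟩ := hn
  -- the norm of `p` is a square
  have hNp : IsSquare (algebraMap V K (Algebra.norm V (AdjoinRoot.mk f p))) := by
    obtain ⟨y, hy⟩ := hN'
    refine ⟨y * (π ^ (k * f.natDegree))⁻¹, ?_⟩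
    have h1 : π ^ (n * f.natDegree) = π ^ (k * f.natDegree) * π ^ (k * f.natDegree) := by
      rw [← zpow_add₀ hpi, hk]
      congr 1
      ring
    have h3 : π ^ (k * (f.natDegree : ℤ)) ≠ 0 := zpow_ne_zero _ hpi
    rw [h1] at hy
    field_simp
    linear_combination hy
  have hsq : ∃ s : V[X], rd V f ∣ rd V p - rd V s ^ 2 := by
    obtain ⟨y, hy⟩ := hNp
    have hyO : y ∈ V := by
      rcases V.mem_or_inv_mem y with h1 | h1
      · exact h1
      · by_cases h0 : y = 0
        · rw [h0]; exact V.zero_mem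
        · have h3 : y = algebraMap V K (Algebra.norm V (AdjoinRoot.mk f p)) * y⁻¹ := by
            rw [hy, mul_assoc, mul_inv_cancel₀ h0, mul_one]
          rw [h3]
          exact V.mul_mem _ _ (Algebra.norm V (AdjoinRoot.mk f p)).2 h1
    have h1 : Algebra.norm V (AdjoinRoot.mk f p) = (⟨y, hyO⟩ : V) * ⟨y, hyO⟩ :=
      Subtype.ext hy
    have h3 : IsSquare (Algebra.norm (IsLocalRing.ResidueField V)
        (AdjoinRoot.mk (rd V f) (rd V p))) := by
      rw [Pool.HYP.UNR.normk f p hf, h1, map_mul]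
      exact ⟨_, rfl⟩
    have h4 : (2 : IsLocalRing.ResidueField V) ≠ 0 := by
      have h5 : IsUnit (2 : V) := by
        refine IsUnit.of_mul_eq_one (⟨_, h2⟩ : V) ?_
        apply Subtype.ext
        change ((2 : V) : K) * (2 : K)⁻¹ = 1
        exact mul_inv_cancel₀ h20
      have h6 := (h5.map (IsLocalRing.residue V)).ne_zero
      rwa [map_ofNat] at h6
    obtain ⟨s, hs⟩ := Pool.HYP.UNR.fin_sq h4 _ _ (hf.map _) hi hp h3
    obtain ⟨s', rfl⟩ := Polynomial.map_surjective (IsLocalRing.residue V)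
      IsLocalRing.residue_surjective s
    exact ⟨s', hs⟩
  obtain ⟨s, D, hD⟩ := hsq
  -- an inverse of `s` modulo `f` and `π`
  have hscop : IsCoprime (rd V s) (rd V f) := by
    obtain ⟨x, y, hxy⟩ := hp
    refine ⟨x * rd V s, y + x * D, ?_⟩
    linear_combination hxy - x * hD
  obtain ⟨x, y, hxy⟩ := hscop
  obtain ⟨t₀, ht₀⟩ := Polynomial.map_surjective (IsLocalRing.residue V)
    IsLocalRing.residue_surjective x
  have ht₀' : rd V t₀ = x := ht₀
  have h0 : rd V f ∣ rd V p * rd V t₀ ^ 2 - 1 := by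
    rw [ht₀']
    refine ⟨D * x ^ 2 - y * (x * rd V s + 1), ?_⟩
    linear_combination x ^ 2 * hD + (x * rd V s + 1) * hxy
  -- the precision
  obtain ⟨e, he0, he1, he2⟩ := hA a ha
  obtain ⟨t, q, B, hB⟩ := newton hU h2 h20 f p t₀ h0 e.toNat
  have hmem : π ^ ((e.toNat : ℤ) + 1) / a ∈ V := by
    have h1 : π ^ ((e.toNat : ℤ) + 1) / a = π ^ ((e.toNat : ℤ) + 1 - e) * (a / π ^ e)⁻¹ := by
      rw [zpow_sub₀ hpi]
      have := zpow_ne_zero e hpi
      field_simp
    rw [h1]
    exact V.mul_mem _ _ (zpow_mem' hU (by omega)) he2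
  -- over `K`
  have hBK : oL V p * oL V t ^ 2 - 1 - C (π ^ (e.toNat + 1)) * oL V q = oL V f * oL V B := by
    have h1 := congrArg (oL V) hB
    simp only [oL, Polynomial.map_sub, Polynomial.map_mul, Polynomial.map_pow,
      Polynomial.map_one, Polynomial.map_C, map_pow] at h1
    rw [C_pow]
    exact h1
  have hkk : C (π ^ n) * C (π ^ (-k)) ^ 2 = (1 : K[X]) := by
    rw [← C_pow, ← C_mul, ← zpow_natCast, ← _root_.zpow_mul, ← zpow_add₀ hpi, hk]
    have : k + k + -k * ((2 : ℕ) : ℤ) = 0 := by push_cast; ring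
    rw [this, zpow_zero, C_1]
  have hdvd : oL V f ∣ α * (C (π ^ (-k)) * oL V t) ^ 2 - 1 -
      C (π ^ (e.toNat + 1)) * oL V q := by
    refine ⟨A * (C (π ^ (-k)) * oL V t) ^ 2 + oL V B, ?_⟩
    linear_combination (C (π ^ (-k)) * oL V t) ^ 2 * hA' + hBK + (oL V p * oL V t ^ 2) * hkk
  refine ⟨C (π ^ (-k)) * oL V t, C (⟨_, hmem⟩ : V) * q, ?_, ?_⟩
  · -- coprimality
    have hirr : Irreducible f := Polynomial.Monic.irreducible_of_irreducible_map
      (IsLocalRing.residue V) f hf hi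
    have hirrK : Irreducible (oL V f) :=
      (Polynomial.Monic.irreducible_iff_irreducible_map_fraction_map hf).1 hirr
    refine IsCoprime.symm ((Irreducible.coprime_iff_not_dvd hirrK).2 fun h => ?_)
    have h1 : oL V f ∣ oL V (1 + C (pv hU ^ (e.toNat + 1)) * q) := by
      have h3 : oL V (1 + C (pv hU ^ (e.toNat + 1)) * q) =
          α * (C (π ^ (-k)) * oL V t) ^ 2 - (α * (C (π ^ (-k)) * oL V t) ^ 2 - 1 -
            C (π ^ (e.toNat + 1)) * oL V q) := by
        simp only [oL, Polynomial.map_add, Polynomial.map_mul, Polynomial.map_one,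
          Polynomial.map_C, map_pow, Polynomial.map_pow]
        rw [coe_pv]
        ring
      rw [h3]
      exact dvd_sub (Dvd.dvd.mul_left (Dvd.dvd.pow h (by norm_num)) _) hdvd
    have h4 : f ∣ 1 + C (pv hU ^ (e.toNat + 1)) * q :=
      (map_dvd_map (algebraMap V K) (IsFractionRing.injective V K) hf).1 h1
    have h5 := Polynomial.map_dvd (IsLocalRing.residue V) h4
    rw [Polynomial.map_add, Polynomial.map_one, Polynomial.map_mul, Polynomial.map_C, map_pow,
      res_pv, zero_pow (by omega), C_0, zero_mul, add_zero] at h5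
    exact hi.not_isUnit (isUnit_of_dvd_one h5)
  · have h1 : C a * oL V (C (⟨_, hmem⟩ : V) * q) = C (π ^ (e.toNat + 1)) * oL V q := by
      simp only [oL, Polynomial.map_mul, Polynomial.map_C]
      rw [← mul_assoc, ← C_mul]
      congr 2
      change a * (π ^ ((e.toNat : ℤ) + 1) / a) = _
      rw [mul_div_cancel₀ _ ha]
      exact_mod_cast zpow_natCast π (e.toNat + 1)
    rw [h1]
    exact hdvd

end Pool.T1
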